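import Mathlib
set_option autoImplicit false
open MeasureTheory

namespace Pool.Agent.Results.MP_6c6e33_an.GaborOrbit

/-!
Bounded operator orbits and overcomplete Gabor frames: if a Gabor frame for the space of square
integrable functions on the line is not a Riesz basis, then no enumeration of it, by the natural
numbers or by the integers, is the orbit of a bounded operator.

Idea. Let S be the frame operator. For a bounded orbit the canonical coefficients of the next
vector are compared with the shifted canonical coefficients of the present one; for a Gabor frame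
both have the same norm, so they coincide. Hence the kernel (f_k, S^(-1) f_j) is a Toeplitz kernel
in the given enumeration, while its modulus is translation invariant on the lattice of
time frequency shifts. A growth comparison between the integers and the lattice forces the kernel
to vanish off the diagonal, which makes the frame a Riesz basis.
-/

/-- The Hilbert space of square integrable complex functions on the real line. -/
noncomputable abbrev L2 := Lp ℂ 2 (volume : Measure ℝ)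

/-- The family `f` is the Gabor system of `g` with translation step `a` and modulation step `b`:
`f (m, n)` is the function `x ↦ exp (2 π i m b x) g (x - n a)`. -/
def IsGaborSystem (a b : ℝ) (g : L2) (f : ℤ × ℤ → L2) : Prop :=
  ∀ m n : ℤ, (f (m, n) : ℝ → ℂ) =ᵐ[volume]
    fun x => Complex.exp (2 * Real.pi * Complex.I * (m * b * x)) * (g : ℝ → ℂ) (x - n * a)

/-- Frame: there are bounds `A, B > 0` with `A ‖x‖² ≤ ∑ |⟨f i, x⟩|² ≤ B ‖x‖²` for all `x`
(and the sum converges). -/
def IsFrame {H : Type*} [NormedAddCommGroup H] [InnerProductSpace ℂ H] {ι : Type*}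
    (f : ι → H) : Prop :=
  ∃ A B : ℝ, 0 < A ∧ 0 < B ∧ ∀ x : H, Summable (fun i => ‖inner ℂ (f i) x‖ ^ 2) ∧
    A * ‖x‖ ^ 2 ≤ ∑' i, ‖inner ℂ (f i) x‖ ^ 2 ∧ ∑' i, ‖inner ℂ (f i) x‖ ^ 2 ≤ B * ‖x‖ ^ 2

/-- Riesz basis: the span is dense and there are `A, B > 0` with
`A ∑ |c i|² ≤ ‖∑ c i • f i‖² ≤ B ∑ |c i|²` for all finite families of scalars. -/
def IsRieszBasis {H : Type*} [NormedAddCommGroup H] [InnerProductSpace ℂ H] {ι : Type*}
    (f : ι → H) : Prop :=
  Dense (Submodule.span ℂ (Set.range f) : Set H) ∧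
  ∃ A B : ℝ, 0 < A ∧ 0 < B ∧ ∀ (s : Finset ι) (c : ι → ℂ),
    A * ∑ i ∈ s, ‖c i‖ ^ 2 ≤ ‖∑ i ∈ s, c i • f i‖ ^ 2 ∧
    ‖∑ i ∈ s, c i • f i‖ ^ 2 ≤ B * ∑ i ∈ s, ‖c i‖ ^ 2

/-- Overcomplete frame: a frame that is not a Riesz basis. -/
def IsOvercompleteFrame {H : Type*} [NormedAddCommGroup H] [InnerProductSpace ℂ H] {ι : Type*}
    (f : ι → H) : Prop :=
  IsFrame f ∧ ¬ IsRieszBasis f

/-- `T` is linear and bounded on the subspace `V`. -/
structure IsBoundedLinearOn {H : Type*} [NormedAddCommGroup H] [InnerProductSpace ℂ H]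
    (V : Set H) (T : H → H) : Prop where
  add : ∀ x ∈ V, ∀ y ∈ V, T (x + y) = T x + T y
  smul : ∀ (c : ℂ), ∀ x ∈ V, T (c • x) = c • T x
  bdd : ∃ C : ℝ, ∀ x ∈ V, ‖T x‖ ≤ C * ‖x‖

/-- The sequence `F` (indexed by `ℕ` or by `ℤ`) has a bounded representation as an operator orbit:
there is a linear operator `T`, bounded on the span of `F`, with `T (F k) = F (k + 1)` for all
indices `k`. -/
def HasBoundedOrbit {H : Type*} [NormedAddCommGroup H] [InnerProductSpace ℂ H]
    {I : Type*} [Add I] [One I] (F : I → H) : Prop :=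
  ∃ T : H → H, IsBoundedLinearOn (Submodule.span ℂ (Set.range F) : Set H) T ∧
    ∀ k, T (F k) = F (k + 1)

/-- Some ordering (enumeration by the index set `I`) of the family `f` has a bounded
representation as an operator orbit. -/
def HasBoundedOrdering (I : Type) [Add I] [One I] {H : Type*} [NormedAddCommGroup H]
    [InnerProductSpace ℂ H] {ι : Type*} (f : ι → H) : Prop :=
  ∃ σ : I ≃ ι, HasBoundedOrbit (fun k => f (σ k))

section general

variable {H : Type*} [NormedAddCommGroup H] [InnerProductSpace ℂ H]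
variable {ι : Type*}

def Bes (f : ι → H) : Prop :=
  ∃ B : ℝ, 0 < B ∧ ∀ x : H, Summable (fun i => ‖inner ℂ (f i) x‖ ^ 2) ∧
    ∑' i, ‖inner ℂ (f i) x‖ ^ 2 ≤ B * ‖x‖ ^ 2

lemma norm_sq_lp (c : lp (fun _ : ι => ℂ) 2) : ‖c‖ ^ 2 = ∑' i, ‖c i‖ ^ 2 := by
  have h := lp.norm_rpow_eq_tsum (p := 2) (by norm_num) c
  have e : ENNReal.toReal 2 = ((2 : ℕ) : ℝ) := by norm_num
  rw [e] at h
  simp only [Real.rpow_natCast] at h
  exact h

lemma summable_sq_lp (c : lp (fun _ : ι => ℂ) 2) : Summable (fun i => ‖c i‖ ^ 2) := by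
  have h := (lp.memℓp c).summable (by norm_num)
  have e : ENNReal.toReal 2 = ((2 : ℕ) : ℝ) := by norm_num
  rw [e] at h
  simp only [Real.rpow_natCast] at h
  exact h

lemma mem_of_summable (c : ι → ℂ) (h : Summable (fun i => ‖c i‖ ^ 2)) : Memℓp c 2 := by
  apply memℓp_gen
  have e : ENNReal.toReal 2 = ((2 : ℕ) : ℝ) := by norm_num
  rw [e]
  simp only [Real.rpow_natCast]
  exact h

/-- analysis -/
noncomputable def an (f : ι → H) (hf : Bes f) : H →L[ℂ] lp (fun _ : ι => ℂ) 2 :=
  LinearMap.mkContinuous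
    { toFun := fun x => ⟨fun i => inner ℂ (f i) x,
        mem_of_summable _ (by obtain ⟨B, _, h⟩ := hf; exact (h x).1)⟩
      map_add' := fun x y => by ext i; exact inner_add_right _ _ _
      map_smul' := fun c x => by ext i; exact inner_smul_right _ _ _ }
    (Real.sqrt hf.choose) (by
      intro x
      obtain ⟨hB, h⟩ := hf.choose_spec
      have h2 := (h x).2
      apply le_of_sq_le_sq _ (by positivity)
      rw [norm_sq_lp, mul_pow, Real.sq_sqrt hB.le]
      exact h2)

lemma an_apply (f : ι → H) (hf : Bes f) (x : H) (i : ι) : an f hf x i = inner ℂ (f i) x := rfl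

lemma norm_an (f : ι → H) (hf : Bes f) (x : H) :
    ‖an f hf x‖ ^ 2 = ∑' i, ‖inner ℂ (f i) x‖ ^ 2 := norm_sq_lp _

variable [CompleteSpace H]

noncomputable def sy (f : ι → H) (hf : Bes f) : lp (fun _ : ι => ℂ) 2 →L[ℂ] H :=
  ContinuousLinearMap.adjoint (an f hf)

lemma sy_single [DecidableEq ι] (f : ι → H) (hf : Bes f) (i : ι) (z : ℂ) :
    sy f hf (lp.single 2 i z) = z • f i := by
  apply ext_inner_right ℂ
  intro x
  unfold sy
  rw [ContinuousLinearMap.adjoint_inner_left, lp.inner_single_left, an_apply, inner_smul_left]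
  simp [mul_comm]

lemma sy_hasSum (f : ι → H) (hf : Bes f) (c : lp (fun _ : ι => ℂ) 2) :
    HasSum (fun i => c i • f i) (sy f hf c) := by
  classical
  have h := (lp.hasSum_single (p := 2) (by norm_num) c).mapL (sy f hf)
  simpa only [sy_single] using h

lemma sy_an_inner (f : ι → H) (hf : Bes f) (x : H) :
    inner ℂ (sy f hf (an f hf x)) x = ((∑' i, ‖inner ℂ (f i) x‖ ^ 2 : ℝ) : ℂ) := by
  unfold sy
  rw [ContinuousLinearMap.adjoint_inner_left, inner_self_eq_norm_sq_to_K, ← norm_an]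
  norm_cast

lemma sy_inner (f : ι → H) (hf : Bes f) (c : lp (fun _ : ι => ℂ) 2) (x : H) :
    inner ℂ (sy f hf c) x = inner ℂ c (an f hf x) := by
  unfold sy
  rw [ContinuousLinearMap.adjoint_inner_left]

/-- frame operator is invertible -/
lemma frame_inv (f : ι → H) (hf : Bes f) (A : ℝ) (hA : 0 < A)
    (h : ∀ x, A * ‖x‖ ^ 2 ≤ ∑' i, ‖inner ℂ (f i) x‖ ^ 2) :
    ∃ R : H →L[ℂ] H, (∀ x, R (sy f hf (an f hf x)) = x) ∧ (∀ x, sy f hf (an f hf (R x)) = x) := by
  have hu : IsUnit ((sy f hf).comp (an f hf)) := by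
    refine ContinuousLinearMap.isUnit_of_forall_le_norm_inner_map _ (c := A.toNNReal)
      (Real.toNNReal_pos.2 hA) ?_
    intro x
    have h1 := sy_an_inner f hf x
    rw [ContinuousLinearMap.comp_apply, h1, Complex.norm_real, Real.coe_toNNReal _ hA.le]
    refine le_trans ?_ (le_abs_self _)
    have := h x
    linarith
  obtain ⟨u, hu⟩ := hu
  refine ⟨(u⁻¹ : (H →L[ℂ] H)ˣ), fun x => ?_, fun x => ?_⟩
  · have h1 : ((u⁻¹ : (H →L[ℂ] H)ˣ) : H →L[ℂ] H) * ((sy f hf).comp (an f hf)) = 1 := by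
      rw [← hu]; simp
    exact congrArg (fun T : H →L[ℂ] H => T x) h1
  · have h1 : ((sy f hf).comp (an f hf)) * ((u⁻¹ : (H →L[ℂ] H)ˣ) : H →L[ℂ] H) = 1 := by
      rw [← hu]; simp
    exact congrArg (fun T : H →L[ℂ] H => T x) h1

/-- Toeplitz property -/
lemma toeplitz (f : ι → H) (hf : Bes f) (R T : H →L[ℂ] H) (τ : ι → ι) (hτ : Function.Injective τ)
    (hR2 : ∀ x, sy f hf (an f hf (R x)) = x)
    (hT : ∀ i, T (f i) = f (τ i)) (v : ℝ) (hv : ∀ i, inner ℂ (f i) (R (f i)) = (v : ℂ)) (i : ι) :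
    (∀ j, inner ℂ (f (τ j)) (R (f (τ i))) = inner ℂ (f j) (R (f i))) ∧
    (∀ m, m ∉ Set.range τ → inner ℂ (f m) (R (f (τ i))) = 0) := by
  classical
  set c : lp (fun _ : ι => ℂ) 2 := an f hf (R (f i)) with hc
  have hcn : ‖c‖ ^ 2 = v := by
    have h1 : ((‖c‖ ^ 2 : ℝ) : ℂ) = (v : ℂ) := by
      have h2 : inner ℂ c c = (v : ℂ) := by
        rw [hc, ← sy_inner, hR2, hv]
      rw [← h2, inner_self_eq_norm_sq_to_K]
      norm_cast
    exact_mod_cast h1
  set c' : ι → ℂ := Function.extend τ c 0 with hc'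
  have hc1 : ∀ j, c' (τ j) = c j := fun j => hτ.extend_apply _ _ _
  have hc2 : ∀ m, m ∉ Set.range τ → c' m = 0 := fun m hm => by
    rw [hc', Function.extend_apply']
    · rfl
    · simpa using hm
  have hs : Summable (fun i => ‖c' i‖ ^ 2) := by
    rw [← hτ.summable_iff (f := fun i => ‖c' i‖ ^ 2)]
    · have := summable_sq_lp c
      refine this.congr ?_
      intro j; simp [hc1]
    · intro m hm; simp [hc2 m hm]
  set d : lp (fun _ : ι => ℂ) 2 := ⟨c', mem_of_summable _ hs⟩ with hd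
  have hdn : ‖d‖ ^ 2 = v := by
    rw [← hcn, norm_sq_lp, norm_sq_lp]
    have : ∑' i, ‖c' i‖ ^ 2 = ∑' j, ‖c' (τ j)‖ ^ 2 := by
      rw [hτ.tsum_eq (f := fun i => ‖c' i‖ ^ 2)]
      intro m hm
      by_contra h
      apply hm
      simp [hc2 m h]
    change ∑' i, ‖c' i‖ ^ 2 = _
    rw [this]
    simp [hc1]
  have hsd : sy f hf d = f (τ i) := by
    have h1 := sy_hasSum f hf d
    have h2 := (sy_hasSum f hf c).mapL T
    rw [hc, hR2, hT] at h2
    have h3 : HasSum (fun i => d i • f i) (f (τ i)) := by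
      rw [← hτ.hasSum_iff]
      · convert h2 using 2 with j
        simp only [Function.comp]
        rw [map_smul, hT]
        change c' (τ j) • _ = _
        rw [hc1]
      · intro m hm
        change c' m • _ = 0
        rw [hc2 m hm, zero_smul]
    exact h1.unique h3
  set e := an f hf (R (f (τ i))) with he
  have hen : ‖e‖ ^ 2 = v := by
    have h1 : ((‖e‖ ^ 2 : ℝ) : ℂ) = (v : ℂ) := by
      have h2 : inner ℂ e e = (v : ℂ) := by
        rw [he, ← sy_inner, hR2, hv]
      rw [← h2, inner_self_eq_norm_sq_to_K]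
      norm_cast
    exact_mod_cast h1
  have hde : inner ℂ d e = (v : ℂ) := by
    rw [he, ← sy_inner, hsd, hv]
  have hz : ‖d - e‖ ^ 2 = 0 := by
    rw [@norm_sub_sq ℂ, hde, hdn, hen]
    simp; ring
  have hde' : d = e := by
    rw [pow_eq_zero_iff (by norm_num), norm_eq_zero, sub_eq_zero] at hz
    exact hz
  refine ⟨fun j => ?_, fun m hm => ?_⟩
  · have h1 : d (τ j) = e (τ j) := by rw [hde']
    rw [he, an_apply] at h1
    rw [← h1]
    change c' (τ j) = _
    rw [hc1, hc, an_apply]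
  · have h1 : d m = e m := by rw [hde']
    rw [he, an_apply] at h1
    rw [← h1]
    exact hc2 m hm

lemma sy_an_hasSum (f : ι → H) (hf : Bes f) (x : H) :
    HasSum (fun i => (inner ℂ (f i) x : ℂ) • f i) (sy f hf (an f hf x)) := by
  simpa only [an_apply] using sy_hasSum f hf (an f hf x)

/-- reindexing does not change the frame operator -/
lemma reindex_eq {κ : Type*} (σ : κ ≃ ι) (f : ι → H) (hf : Bes f) (hF : Bes (fun k => f (σ k)))
    (x : H) : sy (fun k => f (σ k)) hF (an (fun k => f (σ k)) hF x) = sy f hf (an f hf x) := by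
  have h1 := sy_an_hasSum f hf x
  have h2 := sy_an_hasSum (fun k => f (σ k)) hF x
  rw [← σ.hasSum_iff] at h1
  exact h2.unique h1

omit [CompleteSpace H] in
lemma bes_reindex {κ : Type*} (σ : κ ≃ ι) (f : ι → H) (hf : Bes f) : Bes (fun k => f (σ k)) := by
  obtain ⟨B, hB, h⟩ := hf
  refine ⟨B, hB, fun x => ⟨?_, ?_⟩⟩
  · exact (σ.summable_iff (f := fun i => ‖inner ℂ (f i) x‖ ^ 2)).2 (h x).1
  · rw [σ.tsum_eq (fun i => ‖inner ℂ (f i) x‖ ^ 2)]
    exact (h x).2

/-- covariance -/
lemma covariance (f : ι → H) (hf : Bes f) (R : H →L[ℂ] H)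
    (hR1 : ∀ x, R (sy f hf (an f hf x)) = x) (hR2 : ∀ x, sy f hf (an f hf (R x)) = x)
    (π : H →ₗᵢ[ℂ] H) (ρ : ι ≃ ι) (u : ι → ℂ) (hu : ∀ i, ‖u i‖ = 1)
    (hπ : ∀ i, π (f i) = u i • f (ρ i)) (i j : ι) :
    ‖(inner ℂ (f (ρ i)) (R (f (ρ j))) : ℂ)‖ = ‖(inner ℂ (f i) (R (f j)) : ℂ)‖ := by
  have h0 : ∀ i, f (ρ i) = (starRingEnd ℂ (u i)) • π (f i) := by
    intro i
    rw [hπ, smul_smul, mul_comm, Complex.mul_conj, Complex.normSq_eq_norm_sq, hu]
    simp
  have h1 : ∀ x, sy f hf (an f hf (π x)) = π (sy f hf (an f hf x)) := by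
    intro x
    have a1 := sy_an_hasSum f hf (π x)
    have a2 := (sy_an_hasSum f hf x).mapL π.toContinuousLinearMap
    rw [← ρ.hasSum_iff] at a1
    refine a1.unique ?_
    have e1 : ∀ k, π.toContinuousLinearMap ((inner ℂ (f k) x : ℂ) • f k) =
      (inner ℂ (f k) x : ℂ) • π (f k) := by
      intro k; rw [map_smul]; rfl
    convert a2 using 2 with k
    · rw [e1, hπ k, smul_smul]
      change (inner ℂ (f (ρ k)) (π x) : ℂ) • f (ρ k) = _
      congr 1
      rw [h0, inner_smul_left, π.inner_map_map]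
      simp [mul_comm]
    · rfl
  have h2 : ∀ x, R (π x) = π (R x) := by
    intro x
    have := h1 (R x)
    rw [hR2] at this
    rw [← this, hR1]
  rw [h0 i, h0 j, map_smul, h2, inner_smul_left, inner_smul_right, π.inner_map_map]
  rw [norm_mul, norm_mul]
  simp [hu]

lemma inner_R (f : ι → H) (hf : Bes f) (R : H →L[ℂ] H)
    (hR2 : ∀ x, sy f hf (an f hf (R x)) = x) (x y : H) :
    inner ℂ x (R y) = inner ℂ (an f hf (R x)) (an f hf (R y)) := by
  rw [← sy_inner, hR2]

lemma riesz_of_orth (f : ι → H) (hf : Bes f) (R : H →L[ℂ] H)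
    (hR2 : ∀ x, sy f hf (an f hf (R x)) = x) (v : ℂ) (hv : v ≠ 0)
    (h1 : ∀ i, inner ℂ (f i) (R (f i)) = v) (h2 : ∀ i j, i ≠ j → inner ℂ (f i) (R (f j)) = 0) :
    IsRieszBasis f := by
  classical
  have hsym : ∀ x y, inner ℂ x (R y) = inner ℂ (R x) y := by
    intro x y
    rw [inner_R f hf R hR2 x y, ← inner_conj_symm, ← inner_R f hf R hR2 y x, inner_conj_symm]
  have hker : LinearMap.ker (sy f hf : lp (fun _ : ι => ℂ) 2 →ₗ[ℂ] H) = ⊥ := by
    rw [LinearMap.ker_eq_bot']
    intro c hc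
    have h3 := sy_hasSum f hf c
    have hc' : sy f hf c = 0 := hc
    rw [hc'] at h3
    ext k
    have h4 := h3.mapL (innerSL ℂ (R (f k)))
    have h5 : HasSum (fun i => c i * inner ℂ (f k) (R (f i))) (c k * v) := by
      rw [← h1 k]
      apply hasSum_single
      intro i hi
      rw [h2 k i (Ne.symm hi), mul_zero]
    have h6 : HasSum (fun i => c i * inner ℂ (f k) (R (f i))) 0 := by
      simp only [map_zero, map_smul, smul_eq_mul, innerSL_apply_apply] at h4
      simpa only [hsym] using h4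
    have h7 := h5.unique h6
    have h8 : c k = 0 := by
      rcases mul_eq_zero.1 h7 with h | h
      · exact h
      · exact absurd h hv
    simpa using h8
  have hran : LinearMap.range (sy f hf : lp (fun _ : ι => ℂ) 2 →ₗ[ℂ] H) = ⊤ := by
    rw [LinearMap.range_eq_top]
    intro x
    exact ⟨an f hf (R x), hR2 x⟩
  set V := ContinuousLinearEquiv.ofBijective (sy f hf) hker hran with hV
  have hVs : ∀ (s : Finset ι) (c : ι → ℂ), V (∑ i ∈ s, lp.single 2 i (c i)) =
      ∑ i ∈ s, c i • f i := by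
    intro s c
    rw [map_sum]
    refine Finset.sum_congr rfl fun i _ => ?_
    exact sy_single f hf i (c i)
  have hn : ∀ (s : Finset ι) (c : ι → ℂ),
      ‖(∑ i ∈ s, lp.single 2 i (c i) : lp (fun _ : ι => ℂ) 2)‖ ^ 2 = ∑ i ∈ s, ‖c i‖ ^ 2 := by
    intro s c
    have h := lp.norm_sum_single (E := fun _ : ι => ℂ) (p := 2) (by norm_num) c s
    have e : ENNReal.toReal 2 = ((2 : ℕ) : ℝ) := by norm_num
    rw [e] at h
    simp only [Real.rpow_natCast] at h
    exact h
  refine ⟨?_, (‖(V.symm : H →L[ℂ] lp (fun _ : ι => ℂ) 2)‖ ^ 2 + 1)⁻¹,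
    ‖(V : lp (fun _ : ι => ℂ) 2 →L[ℂ] H)‖ ^ 2 + 1, by positivity, by positivity,
    fun s c => ⟨?_, ?_⟩⟩
  · rw [Submodule.dense_iff_topologicalClosure_eq_top, Submodule.topologicalClosure_eq_top_iff,
      Submodule.eq_bot_iff]
    intro x hx
    have h1 : ∀ i, inner ℂ (f i) x = 0 := fun i =>
      (Submodule.mem_orthogonal _ _).1 hx _ (Submodule.subset_span ⟨i, rfl⟩)
    have h2 := sy_an_hasSum f hf (R x)
    rw [hR2] at h2
    have h3 := h2.mapL (innerSL ℂ x)
    simp only [map_smul, smul_eq_mul, innerSL_apply_apply] at h3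
    have h4 : ∀ i, inner ℂ x (f i) = 0 := by
      intro i; rw [← inner_conj_symm, h1, map_zero]
    simp only [h4, mul_zero] at h3
    have h5 := h3.unique hasSum_zero
    exact inner_self_eq_zero.1 h5
  · rw [← hVs, ← hn, inv_mul_le_iff₀ (by positivity)]
    set c' : lp (fun _ : ι => ℂ) 2 := ∑ i ∈ s, lp.single 2 i (c i)
    have h1 : ‖c'‖ ≤ ‖(V.symm : H →L[ℂ] lp (fun _ : ι => ℂ) 2)‖ * ‖V c'‖ := by
      have := (V.symm : H →L[ℂ] lp (fun _ : ι => ℂ) 2).le_opNorm (V c')
      simpa using this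
    have h2 : ‖c'‖ ^ 2 ≤ (‖(V.symm : H →L[ℂ] lp (fun _ : ι => ℂ) 2)‖ * ‖V c'‖) ^ 2 := by gcongr
    nlinarith [sq_nonneg ‖V c'‖]
  · rw [← hVs, ← hn]
    set c' : lp (fun _ : ι => ℂ) 2 := ∑ i ∈ s, lp.single 2 i (c i)
    have h1 : ‖V c'‖ ≤ ‖(V : lp (fun _ : ι => ℂ) 2 →L[ℂ] H)‖ * ‖c'‖ :=
      (V : lp (fun _ : ι => ℂ) 2 →L[ℂ] H).le_opNorm c'
    have h2 : ‖V c'‖ ^ 2 ≤ (‖(V : lp (fun _ : ι => ℂ) 2 →L[ℂ] H)‖ * ‖c'‖) ^ 2 := by gcongr
    nlinarith [sq_nonneg ‖c'‖]

end general

/-- The combinatorial heart. -/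
lemma comb (σ : ℤ ≃ ℤ × ℤ) (V : ℤ × ℤ → ℝ) (p : ℤ → ℝ) (h : ∀ i j, V (σ i - σ j) = p (i - j))
    (hfin : ∀ c : ℝ, 0 < c → {n : ℤ | c ≤ p n}.Finite) (n₀ : ℤ) (hn₀ : n₀ ≠ 0) : p n₀ ≤ 0 := by
  by_contra hcon
  push Not at hcon
  set c := p n₀ with hc
  obtain ⟨M, hM⟩ : ∃ M : ℕ, ∀ n, c ≤ p n → |n| ≤ (M : ℤ) := by
    have hf := (hfin c hcon).image (fun n : ℤ => n.natAbs)
    obtain ⟨M, hM⟩ := hf.bddAbove
    refine ⟨M, fun n hn => ?_⟩
    have h1 : n.natAbs ≤ M := hM ⟨n, hn, rfl⟩
    rw [Int.abs_eq_natAbs]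
    exact_mod_cast h1
  have hM' : ∀ x y : ℤ × ℤ, c ≤ V (x - y) → |σ.symm x - σ.symm y| ≤ (M : ℤ) := by
    intro x y hxy
    apply hM
    rw [← h, σ.apply_symm_apply, σ.apply_symm_apply]
    exact hxy
  set u := σ n₀ - σ 0 with hu
  have hVu : c ≤ V u := by rw [hu, h, sub_zero]
  have hu0 : u ≠ 0 := by
    intro h0
    rw [hu, sub_eq_zero] at h0
    exact hn₀ (σ.injective h0)
  by_cases hA : ∃ v : ℤ × ℤ, c ≤ V v ∧ u.1 * v.2 - u.2 * v.1 ≠ 0
  · obtain ⟨v, hv, hdet⟩ := hA
    set k : ℕ → ℕ → ℤ := fun i j => σ.symm (σ 0 + (i : ℤ) • u + (j : ℤ) • v) with hk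
    have hk1 : ∀ i j, |k (i + 1) j - k i j| ≤ (M : ℤ) := by
      intro i j
      apply hM'
      have e : σ 0 + ((i + 1 : ℕ) : ℤ) • u + (j : ℤ) • v - (σ 0 + (i : ℤ) • u + (j : ℤ) • v) = u := by
        push_cast
        rw [add_smul, one_smul]
        abel
      rw [e]; exact hVu
    have hk2 : ∀ i j, |k i (j + 1) - k i j| ≤ (M : ℤ) := by
      intro i j
      apply hM'
      have e : σ 0 + (i : ℤ) • u + ((j + 1 : ℕ) : ℤ) • v - (σ 0 + (i : ℤ) • u + (j : ℤ) • v) = v := by
        push_cast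
        rw [add_smul, one_smul]
        abel
      rw [e]; exact hv
    have hk3 : ∀ i, |k i 0 - k 0 0| ≤ (M : ℤ) * i := by
      intro i
      induction i with
      | zero => simp
      | succ i ih =>
        have := hk1 i 0
        rw [abs_le] at *
        push_cast
        constructor <;> linarith
    have hk4 : ∀ i j, |k i j - k 0 0| ≤ (M : ℤ) * (i + j) := by
      intro i j
      induction j with
      | zero => simpa using hk3 i
      | succ j ih =>
        have := hk2 i j
        rw [abs_le] at *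
        push_cast
        constructor <;> linarith
    have hinj : ∀ i j i' j', k i j = k i' j' → i = i' ∧ j = j' := by
      intro i j i' j' hh
      have h1 := σ.symm.injective hh
      have h2 := congrArg Prod.fst h1
      have h3 := congrArg Prod.snd h1
      simp only [Prod.fst_add, Prod.snd_add, Prod.smul_fst, Prod.smul_snd, smul_eq_mul] at h2 h3
      have h4 : ((i : ℤ) - i') * (u.1 * v.2 - u.2 * v.1) = 0 := by linear_combination v.2 * h2 - v.1 * h3
      have h5 : ((j : ℤ) - j') * (u.1 * v.2 - u.2 * v.1) = 0 := by linear_combination u.1 * h3 - u.2 * h2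
      have h6 := (mul_eq_zero.1 h4).resolve_right hdet
      have h7 := (mul_eq_zero.1 h5).resolve_right hdet
      constructor <;> omega
    set r := 4 * M + 2 with hr
    have hcard : (Finset.range r ×ˢ Finset.range r).card ≤
        (Finset.Icc (k 0 0 - 2 * M * r) (k 0 0 + 2 * M * r)).card := by
      apply Finset.card_le_card_of_injOn (fun q => k q.1 q.2)
      · intro q hq
        simp only [Finset.coe_product, Finset.coe_range, Set.mem_prod, Set.mem_Iio] at hq
        have := hk4 q.1 q.2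
        rw [abs_le] at this
        simp only [Finset.coe_Icc, Set.mem_Icc]
        have h1 : (q.1 : ℤ) ≤ r := by exact_mod_cast hq.1.le
        have h2 : (q.2 : ℤ) ≤ r := by exact_mod_cast hq.2.le
        have h3 : (M : ℤ) * (q.1 + q.2) ≤ M * (r + r) := by
          apply mul_le_mul_of_nonneg_left _ (by positivity); linarith
        constructor <;> nlinarith
      · intro q _ q' _ hqq
        have := hinj _ _ _ _ hqq
        exact Prod.ext this.1 this.2
    rw [Finset.card_product, Finset.card_range, Int.card_Icc] at hcard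
    have e : (k 0 0 + 2 * M * r + 1 - (k 0 0 - 2 * M * r)).toNat = 4 * M * r + 1 := by
      have : (k 0 0 + 2 * M * r + 1 - (k 0 0 - 2 * M * r)) = ((4 * M * r + 1 : ℕ) : ℤ) := by
        push_cast; ring
      rw [this]; exact Int.toNat_natCast _
    rw [e] at hcard
    have : r * r = 4 * M * r + 2 * r := by rw [hr]; ring
    omega
  · push Not at hA
    set d : ℤ → ℤ := fun i => u.1 * (σ i).2 - u.2 * (σ i).1 with hd
    have hper : ∀ i, d (i + n₀) = d i := by
      intro i
      have h1 : c ≤ V (σ (i + n₀) - σ i) := by rw [h]; simp [hc]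
      have h2 := hA _ h1
      simp only [Prod.snd_sub, Prod.fst_sub] at h2
      rw [hd]
      simp only
      linarith
    have hperz : ∀ (m : ℤ) i, d (i + n₀ * m) = d i := by
      intro m
      induction m using Int.induction_on with
      | zero => simp
      | succ m ih =>
        intro i
        rw [mul_add, mul_one, ← add_assoc, hper, ih]
      | pred m ih =>
        intro i
        rw [← hper, ← ih i]
        congr 1; ring
    have hfinr : (Set.range d).Finite := by
      apply ((Set.finite_Ico (0:ℤ) |n₀|).image d).subset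
      rintro _ ⟨i, rfl⟩
      refine ⟨i % n₀, ⟨Int.emod_nonneg _ hn₀, Int.emod_lt_abs _ hn₀⟩, ?_⟩
      rw [← hperz (i / n₀) (i % n₀), Int.emod_add_mul_ediv]
    have hinf : (Set.range d).Infinite := by
      have hsub : Set.range (fun t : ℤ => t * (u.1 ^ 2 + u.2 ^ 2)) ⊆ Set.range d := by
        rintro _ ⟨t, rfl⟩
        refine ⟨σ.symm (-(t * u.2), t * u.1), ?_⟩
        simp only [hd, σ.apply_symm_apply]
        ring
      apply Set.Infinite.mono hsub
      apply Set.infinite_range_of_injective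
      intro t t' htt
      have hpos : u.1 ^ 2 + u.2 ^ 2 ≠ 0 := by
        intro h0
        apply hu0
        have h1 : u.1 = 0 := by nlinarith [sq_nonneg u.1, sq_nonneg u.2]
        have h2 : u.2 = 0 := by nlinarith [sq_nonneg u.1, sq_nonneg u.2]
        exact Prod.ext h1 h2
      exact mul_right_cancel₀ hpos htt
    exact hinf hfinr


noncomputable def md (β x : ℝ) : ℂ := Complex.exp (((2 * Real.pi * β * x : ℝ) : ℂ) * Complex.I)

lemma norm_md (β x : ℝ) : ‖md β x‖ = 1 := Complex.norm_exp_ofReal_mul_I _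

lemma md_add (β β' x : ℝ) : md (β + β') x = md β x * md β' x := by
  unfold md
  rw [← Complex.exp_add]
  congr 1
  push_cast
  ring

lemma md_sub (β x y : ℝ) : md β (x - y) = md β x * md β (-y) := by
  unfold md
  rw [← Complex.exp_add]
  congr 1
  push_cast
  ring

lemma eLpNorm_tf (α β : ℝ) (u : ℝ → ℂ) (hu : AEStronglyMeasurable u volume) :
    eLpNorm (fun x => md β x * u (x - α)) 2 volume = eLpNorm u 2 volume := by
  have h1 : eLpNorm (fun x => md β x * u (x - α)) 2 volume =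
      eLpNorm (fun x => u (x - α)) 2 volume := by
    apply eLpNorm_congr_norm_ae
    filter_upwards with x
    rw [norm_mul, norm_md, one_mul]
  rw [h1]
  exact eLpNorm_comp_measurePreserving hu (measurePreserving_sub_right (volume : Measure ℝ) α)

lemma memLp_tf (α β : ℝ) {u : ℝ → ℂ} (hu : MemLp u 2 volume) :
    MemLp (fun x => md β x * u (x - α)) 2 volume := by
  refine ⟨?_, ?_⟩
  · apply AEStronglyMeasurable.mul
    · apply Continuous.aestronglyMeasurable
      unfold md
      fun_prop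
    · exact hu.1.comp_measurePreserving (measurePreserving_sub_right (volume : Measure ℝ) α)
  · rw [eLpNorm_tf α β u hu.1]; exact hu.2

/-- Time frequency shift as a linear isometry. -/
noncomputable def tf (α β : ℝ) : L2 →ₗᵢ[ℂ] L2 where
  toFun u := MemLp.toLp (fun x => md β x * (u : ℝ → ℂ) (x - α)) (memLp_tf α β (Lp.memLp u))
  map_add' u v := by
    rw [← MemLp.toLp_add]
    apply MemLp.toLp_congr
    have h := (measurePreserving_sub_right (volume : Measure ℝ) α).quasiMeasurePreserving.ae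
      (Lp.coeFn_add u v)
    filter_upwards [h] with x hx
    rw [hx]
    simp [mul_add]
  map_smul' c u := by
    rw [RingHom.id_apply, ← MemLp.toLp_const_smul]
    apply MemLp.toLp_congr
    have h := (measurePreserving_sub_right (volume : Measure ℝ) α).quasiMeasurePreserving.ae
      (Lp.coeFn_smul c u)
    filter_upwards [h] with x hx
    rw [hx]
    simp [mul_left_comm]
  norm_map' u := by
    simp only [LinearMap.coe_mk, AddHom.coe_mk, Lp.norm_toLp]
    rw [eLpNorm_tf α β _ (Lp.memLp u).1, Lp.norm_def]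

lemma coeFn_tf (α β : ℝ) (u : L2) :
    (tf α β u : ℝ → ℂ) =ᵐ[volume] fun x => md β x * (u : ℝ → ℂ) (x - α) :=
  MemLp.coeFn_toLp (memLp_tf α β (Lp.memLp u))

lemma gabor_tf (a b : ℝ) (g : L2) (f : ℤ × ℤ → L2) (hf : IsGaborSystem a b g f) (ν μ : ℤ × ℤ) :
    tf (ν.2 * a) (ν.1 * b) (f μ) = md (μ.1 * b) (-(ν.2 * a)) • f (μ + ν) := by
  apply Lp.ext
  have h1 := coeFn_tf (ν.2 * a) (ν.1 * b) (f μ)
  have h2 := Lp.coeFn_smul (md (μ.1 * b) (-(ν.2 * a))) (f (μ + ν))
  have h3 := hf (μ.1 + ν.1) (μ.2 + ν.2)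
  have h4 := (measurePreserving_sub_right (volume : Measure ℝ) (ν.2 * a)).quasiMeasurePreserving.ae
      (hf μ.1 μ.2)
  have e : (μ.1 + ν.1, μ.2 + ν.2) = μ + ν := rfl
  rw [e] at h3
  filter_upwards [h1, h2, h3, h4] with x hx1 hx2 hx3 hx4
  rw [hx1, hx2, Pi.smul_apply, hx3, hx4, smul_eq_mul]
  have e1 : x - ν.2 * a - μ.2 * a = x - ((μ.2 + ν.2 : ℤ) : ℝ) * a := by push_cast; ring
  rw [e1]
  have e2 : md (ν.1 * b) x *
      Complex.exp (2 * Real.pi * Complex.I * (μ.1 * b * ((x - ν.2 * a : ℝ) : ℂ))) =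
      md (μ.1 * b) (-(ν.2 * a)) *
      Complex.exp (2 * Real.pi * Complex.I * (((μ.1 + ν.1 : ℤ) : ℂ) * b * x)) := by
    unfold md
    rw [← Complex.exp_add, ← Complex.exp_add]
    congr 1
    push_cast
    ring
  linear_combination ((g : ℝ → ℂ) (x - ((μ.2 + ν.2 : ℤ) : ℝ) * a)) * e2


lemma IsFrame.bes {H : Type*} [NormedAddCommGroup H] [InnerProductSpace ℂ H] {ι : Type*}
    {f : ι → H} (hf : IsFrame f) : Bes f := by
  obtain ⟨A, B, hA, hB, h⟩ := hf
  exact ⟨B, hB, fun x => ⟨(h x).1, (h x).2.2⟩⟩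

/-- A family with a lower bound has dense span. -/
lemma dense_span {H : Type*} [NormedAddCommGroup H] [InnerProductSpace ℂ H] [CompleteSpace H]
    {ι : Type*} {f : ι → H} (hf : IsFrame f) : (Submodule.span ℂ (Set.range f))ᗮ = ⊥ := by
  obtain ⟨A, B, hA, hB, h⟩ := hf
  rw [Submodule.eq_bot_iff]
  intro x hx
  have h1 : ∀ i, inner ℂ (f i) x = 0 := fun i =>
    (Submodule.mem_orthogonal _ _).1 hx _ (Submodule.subset_span ⟨i, rfl⟩)
  have h2 := (h x).2.1
  simp only [h1, norm_zero] at h2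
  simp at h2
  have h3 : ‖x‖ ^ 2 ≤ 0 := by
    by_contra hcon
    push Not at hcon
    nlinarith [mul_pos hA hcon]
  have h4 : ‖x‖ ^ 2 = 0 := le_antisymm h3 (sq_nonneg _)
  simpa using h4

/-- Extension of a bounded orbit operator to the whole space. -/
lemma exists_extension {H : Type*} [NormedAddCommGroup H] [InnerProductSpace ℂ H] [CompleteSpace H]
    {I : Type*} [Add I] [One I] (F : I → H) (hd : (Submodule.span ℂ (Set.range F))ᗮ = ⊥)
    (h : HasBoundedOrbit F) : ∃ T : H →L[ℂ] H, ∀ k, T (F k) = F (k + 1) := by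
  obtain ⟨T₀, ⟨hadd, hsmul, C, hC⟩, hT₀⟩ := h
  set T : Submodule.span ℂ (Set.range F) →L[ℂ] H :=
    LinearMap.mkContinuous
      { toFun := fun x => T₀ x
        map_add' := fun x y => hadd _ x.2 _ y.2
        map_smul' := fun c x => hsmul c _ x.2 } C (fun x => hC _ x.2) with hTdef
  have hT : ∀ k, T ⟨F k, Submodule.subset_span ⟨k, rfl⟩⟩ = F (k + 1) := fun k => hT₀ k
  have hdr : DenseRange (Submodule.span ℂ (Set.range F)).subtypeL := by
    have h1 : (Submodule.span ℂ (Set.range F)).topologicalClosure = ⊤ :=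
      Submodule.topologicalClosure_eq_top_iff.2 hd
    have h2 := Submodule.dense_iff_topologicalClosure_eq_top.2 h1
    rw [DenseRange]
    convert h2
    ext x; simp
  have hui : IsUniformInducing (Submodule.span ℂ (Set.range F)).subtypeL :=
    (Submodule.span ℂ (Set.range F)).subtypeₗᵢ.isometry.isUniformInducing
  refine ⟨ContinuousLinearMap.extend T (Submodule.span ℂ (Set.range F)).subtypeL, fun k => ?_⟩
  rw [← hT k]
  exact ContinuousLinearMap.extend_eq (f := T) hdr hui ⟨F k, Submodule.subset_span ⟨k, rfl⟩⟩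

lemma exists_ne_zero_L2 : ∃ x : L2, x ≠ 0 := by
  refine ⟨indicatorConstLp 2 (measurableSet_Icc (a := (0:ℝ)) (b := 1)) (by simp) (1 : ℂ), ?_⟩
  intro h
  have h1 := norm_indicatorConstLp (p := 2) (μ := (volume : Measure ℝ))
    (hs := measurableSet_Icc (a := (0:ℝ)) (b := 1)) (hμs := by simp) (c := (1 : ℂ)) (by norm_num)
    (by norm_num)
  rw [h] at h1
  simp at h1

/-- The kernel of the inverse frame operator. -/
lemma core (a b : ℝ) (g : L2) (f : ℤ × ℤ → L2)
    (hg : IsGaborSystem a b g f) (hframe : IsFrame f) (hover : ¬ IsRieszBasis f) :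
    ∃ (R : L2 →L[ℂ] L2) (V : ℤ × ℤ → ℝ), (∀ x, sy f hframe.bes (an f hframe.bes (R x)) = x) ∧
      (∀ μ l, ‖(inner ℂ (f μ) (R (f l)) : ℂ)‖ = V (μ - l)) ∧
      (∀ μ, (inner ℂ (f μ) (R (f μ)) : ℂ) = (V 0 : ℂ)) ∧
      ¬ (∀ μ l, μ ≠ l → (inner ℂ (f μ) (R (f l)) : ℂ) = 0) := by
  have hb := hframe.bes
  have hframe' := hframe
  obtain ⟨A, B, hA, hB, h⟩ := hframe'
  obtain ⟨R, hR1, hR2⟩ := frame_inv f hb A hA (fun x => (h x).2.1)
  have hcov : ∀ ν μ l : ℤ × ℤ, ‖(inner ℂ (f (μ + ν)) (R (f (l + ν))) : ℂ)‖ =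
      ‖(inner ℂ (f μ) (R (f l)) : ℂ)‖ := by
    intro ν μ l
    exact covariance f hb R hR1 hR2 (tf (ν.2 * a) (ν.1 * b)) (Equiv.addRight ν)
      (fun μ => md (μ.1 * b) (-(ν.2 * a))) (fun _ => norm_md _ _)
      (fun μ => gabor_tf a b g f hg ν μ) μ l
  have hdiag : ∀ μ, (inner ℂ (f μ) (R (f μ)) : ℂ) = ((‖an f hb (R (f μ))‖ ^ 2 : ℝ) : ℂ) := by
    intro μ
    rw [inner_R f hb R hR2, inner_self_eq_norm_sq_to_K]
    norm_cast
  have hV : ∀ μ l, ‖(inner ℂ (f μ) (R (f l)) : ℂ)‖ = ‖(inner ℂ (f (μ - l)) (R (f 0)) : ℂ)‖ := by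
    intro μ l
    rw [← hcov l (μ - l) 0, sub_add_cancel, zero_add]
  have hd2 : ∀ μ, (inner ℂ (f μ) (R (f μ)) : ℂ) = ((‖(inner ℂ (f 0) (R (f 0)) : ℂ)‖ : ℝ) : ℂ) := by
    intro μ
    have h1 := hV μ μ
    rw [sub_self] at h1
    rw [← h1, hdiag μ, Complex.norm_real, Real.norm_of_nonneg (by positivity)]
  refine ⟨R, fun μ => ‖(inner ℂ (f μ) (R (f 0)) : ℂ)‖, hR2, hV, hd2, ?_⟩
  intro horth
  apply hover
  refine riesz_of_orth f hb R hR2 _ ?_ hd2 horth
  intro h0
  have h1 : ∀ μ, f μ = 0 := by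
    intro μ
    have h2 := hd2 μ
    rw [h0, hdiag μ] at h2
    have h3 : ‖an f hb (R (f μ))‖ ^ 2 = 0 := by exact_mod_cast h2
    have h4 : an f hb (R (f μ)) = 0 := by simpa using h3
    have h5 := hR2 (f μ)
    rw [h4, map_zero] at h5
    exact h5.symm
  obtain ⟨x, hx⟩ := exists_ne_zero_L2
  have h2 := (h x).2.1
  simp only [h1, inner_zero_left, norm_zero] at h2
  simp at h2
  have h3 : 0 < ‖x‖ ^ 2 := by positivity
  nlinarith [mul_pos hA h3]

/-- No ordering, by the natural numbers or by the integers, of an overcomplete Gabor frame has a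
bounded representation as an operator orbit. -/
theorem result (a b : ℝ) (_ha : 0 < a) (_hb : 0 < b) (g : L2) (f : ℤ × ℤ → L2)
    (hf : IsGaborSystem a b g f) (hover : IsOvercompleteFrame f) :
    ¬ HasBoundedOrdering ℕ f ∧ ¬ HasBoundedOrdering ℤ f := by
  obtain ⟨hframe, hover⟩ := hover
  obtain ⟨R, V, hR2, hV, hd, hno⟩ := core a b g f hf hframe hover
  have hb := hframe.bes
  have hdense := dense_span hframe
  constructor
  · rintro ⟨σ, hσ⟩
    have hF := bes_reindex σ f hb
    have hd' : (Submodule.span ℂ (Set.range (fun k => f (σ k))))ᗮ = ⊥ := by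
      have : Set.range (fun k => f (σ k)) = Set.range f := σ.surjective.range_comp f
      rw [this]; exact hdense
    obtain ⟨T, hT⟩ := exists_extension _ hd' hσ
    have hR2' : ∀ x, sy (fun k => f (σ k)) hF (an (fun k => f (σ k)) hF (R x)) = x := by
      intro x; rw [reindex_eq σ f hb hF]; exact hR2 x
    have ht := toeplitz (fun k => f (σ k)) hF R T (fun k => k + 1) (add_left_injective 1) hR2' hT
      (V 0) (fun i => hd (σ i))
    have h1 : ∀ i j, (inner ℂ (f (σ i)) (R (f (σ (i + j + 1)))) : ℂ) = 0 := by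
      intro i
      induction i with
      | zero =>
        intro j
        have := (ht j).2 0 (by simp)
        simpa using this
      | succ i ih =>
        intro j
        have := (ht (i + j + 1)).1 i
        have e : i + 1 + j + 1 = i + j + 1 + 1 := by ring
        rw [e]
        exact this.trans (ih j)
    have h2 : ∀ i j, (inner ℂ (f (σ (i + j + 1))) (R (f (σ i))) : ℂ) = 0 := by
      intro i j
      rw [inner_R f hb R hR2, ← inner_conj_symm, ← inner_R f hb R hR2, h1, map_zero]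
    apply hno
    intro μ l hne
    obtain ⟨i, rfl⟩ := σ.surjective μ
    obtain ⟨j, rfl⟩ := σ.surjective l
    have hij : i ≠ j := fun h => hne (by rw [h])
    rcases Nat.lt_or_gt_of_ne hij with hlt | hlt
    · obtain ⟨k, rfl⟩ := Nat.exists_eq_add_of_lt hlt
      exact h1 i k
    · obtain ⟨k, rfl⟩ := Nat.exists_eq_add_of_lt hlt
      exact h2 j k
  · rintro ⟨σ, hσ⟩
    have hF := bes_reindex σ f hb
    have hd' : (Submodule.span ℂ (Set.range (fun k => f (σ k))))ᗮ = ⊥ := by
      have : Set.range (fun k => f (σ k)) = Set.range f := σ.surjective.range_comp f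
      rw [this]; exact hdense
    obtain ⟨T, hT⟩ := exists_extension _ hd' hσ
    have hR2' : ∀ x, sy (fun k => f (σ k)) hF (an (fun k => f (σ k)) hF (R x)) = x := by
      intro x; rw [reindex_eq σ f hb hF]; exact hR2 x
    have ht := toeplitz (fun k => f (σ k)) hF R T (fun k => k + 1) (add_left_injective 1) hR2' hT
      (V 0) (fun i => hd (σ i))
    set p : ℤ → ℝ := fun n => ‖(inner ℂ (f (σ n)) (R (f (σ 0))) : ℂ)‖ with hp
    have h1 : ∀ i j : ℤ, ‖(inner ℂ (f (σ (j + i))) (R (f (σ i))) : ℂ)‖ = p j := by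
      intro i
      induction i using Int.induction_on with
      | zero => intro j; simp [hp]
      | succ i ih =>
        intro j
        have := (ht (i : ℤ)).1 (j + i)
        rw [← ih j, ← add_assoc]
        exact congrArg norm this
      | pred i ih =>
        intro j
        have := (ht (-(i : ℤ) - 1)).1 (j + (-(i : ℤ) - 1))
        rw [← ih j]
        have e1 : j + (-(i : ℤ) - 1) + 1 = j + -(i : ℤ) := by ring
        have e2 : -(i : ℤ) - 1 + 1 = -(i : ℤ) := by ring
        rw [e1, e2] at this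
        exact (congrArg norm this).symm
    have h2 : ∀ i j : ℤ, V (σ i - σ j) = p (i - j) := by
      intro i j
      rw [← hV, ← h1 j (i - j), sub_add_cancel]
    have hs : Summable (fun n => p n ^ 2) := by
      have := summable_sq_lp (an (fun k => f (σ k)) hF (R (f (σ 0))))
      exact this
    have hfin : ∀ c : ℝ, 0 < c → {n : ℤ | c ≤ p n}.Finite := by
      intro c hc
      have h3 := hs.tendsto_cofinite_zero
      have h4 := h3.eventually (gt_mem_nhds (show (0:ℝ) < c ^ 2 by positivity))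
      rw [Filter.eventually_cofinite] at h4
      refine h4.subset ?_
      intro n hn
      simp only [Set.mem_ofPred_eq, not_lt] at hn ⊢
      gcongr
    apply hno
    intro μ l hne
    obtain ⟨i, rfl⟩ := σ.surjective μ
    obtain ⟨j, rfl⟩ := σ.surjective l
    have hij : i - j ≠ 0 := fun h => hne (by rw [sub_eq_zero.1 h])
    have h5 := comb σ V p h2 hfin (i - j) hij
    have h6 := h1 j (i - j)
    rw [sub_add_cancel] at h6
    rw [← norm_eq_zero]
    rw [h6]
    exact le_antisymm h5 (norm_nonneg _)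

end Pool.Agent.Results.MP_6c6e33_an.GaborOrbit
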